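import Pool.Agent.Helper63.Qh.ENA

set_option autoImplicit false

/-!
# Module EN of MP_8410ab_nt (quaternionic family): the energy inequality
-/

namespace Pool.Agent.Helper19.Qh

open MeasureTheory Topology Filter
open scoped ComplexConjugate

variable {m : ℕ}

/-- sum of squares -/
noncomputable def en_Af {ι : Type} [Fintype ι] (u : ι → Pt m → ℂ) (p : Pt m) : ℝ :=
  ∑ i, ‖u i p‖ ^ 2
/-- sum of squared gradients -/
noncomputable def en_Bf {ι : Type} [Fintype ι] (u : ι → Pt m → ℂ) (p : Pt m) : ℝ :=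
  ∑ i, gsq (u i) p

theorem en_Af_nonneg {ι : Type} [Fintype ι] (u : ι → Pt m → ℂ) (p : Pt m) : 0 ≤ en_Af u p :=
  Finset.sum_nonneg fun _ _ => by positivity

theorem en_gsq_nonneg {f : Pt m → ℂ} {p : Pt m} (hp : p ∈ SD m) : 0 ≤ gsq f p := by
  have hp' : 0 < hgt p := hp
  unfold gsq
  have h1 : 0 ≤ ∑ r : Fin 4, ‖pd (qu r, 0) f p‖ ^ 2 :=
    Finset.sum_nonneg fun _ _ => by positivity
  have h2 : 0 ≤ ∑ k : Fin m, ∑ r : Fin 4, ‖XX (ek k (qu r)) f p‖ ^ 2 :=
    Finset.sum_nonneg fun _ _ => Finset.sum_nonneg fun _ _ => by positivity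
  positivity

theorem en_Bf_nonneg {ι : Type} [Fintype ι] (u : ι → Pt m → ℂ) {p : Pt m} (hp : p ∈ SD m) :
    0 ≤ en_Bf u p := Finset.sum_nonneg fun _ _ => en_gsq_nonneg hp

theorem en_continuousOn_Af {ι : Type} [Fintype ι] {u : ι → Pt m → ℂ}
    (hu : ∀ i, ContDiffOn ℝ 1 (u i) (SD m)) : ContinuousOn (en_Af u) (SD m) := by
  unfold en_Af
  exact continuousOn_finsetSum _ fun i _ => ((hu i).continuousOn.norm).pow 2

theorem en_continuousOn_gsq {u : Pt m → ℂ} (hu : ContDiffOn ℝ 1 u (SD m)) :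
    ContinuousOn (gsq u) (SD m) := by
  have h : ContinuousOn (hgt : Pt m → ℝ) (SD m) := continuous_hgt.continuousOn
  exact ((h.pow 2).mul (continuousOn_finsetSum _ fun r _ =>
      (en_continuousOn_pd (qu r, 0) hu).norm.pow 2)).add
    (h.mul (continuousOn_finsetSum _ fun k _ => continuousOn_finsetSum _ fun r _ =>
      (en_continuousOn_XX (ek k (qu r)) hu).norm.pow 2))

theorem en_continuousOn_Bf {ι : Type} [Fintype ι] {u : ι → Pt m → ℂ}
    (hu : ∀ i, ContDiffOn ℝ 1 (u i) (SD m)) : ContinuousOn (en_Bf u) (SD m) := by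
  unfold en_Bf
  exact continuousOn_finsetSum _ fun i _ => en_continuousOn_gsq (hu i)

/-- the localised energy identity -/
theorem en_energy_identity {ι : Type} [Fintype ι] {u : ι → Pt m → ℂ}
    (hu : ∀ i, ContDiffOn ℝ 1 (u i) (SD m)) {lam : ℂ} (heig : ∀ i, WeakEig lam (u i))
    {η : Pt m → ℝ} (hη : ContDiff ℝ 1 η) {K : Set (Pt m)} (hK : IsCompact K) (hKU : K ⊆ SD m)
    (h0 : ∀ p, p ∉ K → η p = 0) :
    ∫ p, (Gop u (en_cc η) p + (η p : ℂ) * (en_Bf u p : ℂ)) ∂(hyp m)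
      = lam * ∫ p, (η p : ℂ) * (en_Af u p : ℂ) ∂(hyp m) := by
  have hts : tsupport η ⊆ K := closure_minimal (fun p hp => by
    by_contra h; exact hp (h0 p h)) hK.isClosed
  set φ : ι → Pt m → ℂ := fun i p => en_cc η p * (starRingEnd ℂ) (u i p) with hφ
  have hcη : ContDiff ℝ 1 (en_cc η) := en_contDiff_cc hη
  have hφU : ∀ i, ContDiffOn ℝ 1 (φ i) (SD m) := fun i =>
    hcη.contDiffOn.mul (en_contDiffOn_conj (hu i))
  have hφ0 : ∀ i, ∀ p, p ∉ K → φ i p = 0 := fun i p hp => by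
    simp only [hφ, en_cc, h0 p hp]; simp
  have hφC : ∀ i, ContDiff ℝ 1 (φ i) := fun i =>
    en_contDiff_of_SD hK.isClosed hKU (hφU i) (hφ0 i)
  have hφc : ∀ i, HasCompactSupport (φ i) := fun i => HasCompactSupport.intro hK (hφ0 i)
  have hφs : ∀ i, tsupport (φ i) ⊆ K := fun i => closure_minimal (fun p hp => by
    by_contra h; exact hp (hφ0 i p h)) hK.isClosed
  have hw := fun i => heig i (φ i) (hφC i) (hφc i) ((hφs i).trans hKU)
  have hgd : ∀ i, ∀ p ∈ SD m, gdot (u i) (φ i) p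
      = (η p : ℂ) * (gsq (u i) p : ℂ) + (starRingEnd ℂ) (u i p) * gdot (u i) (en_cc η) p := by
    intro i p hp
    have h1 : DifferentiableAt ℝ (en_cc η) p := hcη.differentiable one_ne_zero p
    have h2 : DifferentiableAt ℝ (fun q => (starRingEnd ℂ) (u i q)) p :=
      en_differentiableAt_of (en_contDiffOn_conj (hu i)) hp
    have h3 := en_gdot_mul (u := u i) h1 h2
    rw [en_gdot_conj_self (en_differentiableAt_of (hu i) hp)] at h3
    exact h3
  have hi1 : ∀ i, Integrable (fun p => gdot (u i) (φ i) p) (hyp m) := fun i =>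
    en_integrable_hyp hK hKU (en_continuousOn_gdot (hu i) (hφU i)) fun p hp =>
      en_gdot_zero_off fun h => hp (hφs i h)
  have hi2 : ∀ i, Integrable (fun p => u i p * φ i p) (hyp m) := fun i =>
    en_integrable_hyp hK hKU ((hu i).continuousOn.mul (hφU i).continuousOn) fun p hp => by
      rw [hφ0 i p hp, mul_zero]
  have e1' : ∫ p, (Gop u (en_cc η) p + (η p : ℂ) * (en_Bf u p : ℂ)) ∂(hyp m)
      = ∑ i, ∫ p, gdot (u i) (φ i) p ∂(hyp m) := by
    rw [← integral_finsetSum _ fun i _ => hi1 i]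
    refine integral_congr_ae ?_
    filter_upwards [ae_hyp_mem] with p hp
    unfold Gop en_Bf
    push_cast
    rw [Finset.mul_sum, ← Finset.sum_add_distrib]
    refine Finset.sum_congr rfl fun i _ => ?_
    rw [hgd i p hp]
    ring
  have e2' : ∫ p, (η p : ℂ) * (en_Af u p : ℂ) ∂(hyp m)
      = ∑ i, ∫ p, u i p * φ i p ∂(hyp m) := by
    rw [← integral_finsetSum _ fun i _ => hi2 i]
    refine integral_congr_ae ?_
    filter_upwards [ae_hyp_mem] with p hp
    unfold en_Af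
    push_cast
    rw [Finset.mul_sum]
    refine Finset.sum_congr rfl fun i _ => ?_
    simp only [hφ, en_cc]
    rw [← Complex.mul_conj']
    ring
  rw [e1', e2', Finset.mul_sum]
  exact Finset.sum_congr rfl fun i _ => hw i

/-! ## the cut-off -/

/-- smooth function equal to `1` on `(-∞,1]` and `0` on `[2,∞)` -/
noncomputable def en_bt (t : ℝ) : ℝ := Real.smoothTransition (2 - t)

theorem en_bt_one {t : ℝ} (ht : t ≤ 1) : en_bt t = 1 :=
  Real.smoothTransition.one_of_one_le (by linarith)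

theorem en_bt_zero {t : ℝ} (ht : 2 ≤ t) : en_bt t = 0 :=
  Real.smoothTransition.zero_of_nonpos (by linarith)

theorem en_bt_nonneg (t : ℝ) : 0 ≤ en_bt t := Real.smoothTransition.nonneg _
theorem en_bt_le_one (t : ℝ) : en_bt t ≤ 1 := Real.smoothTransition.le_one _

theorem en_contDiff_bt : ContDiff ℝ 1 en_bt :=
  Real.smoothTransition.contDiff.comp (contDiff_const.sub contDiff_id)

theorem en_deriv_bt_low {t : ℝ} (ht : t < 1) : deriv en_bt t = 0 := by
  have h : en_bt =ᶠ[𝓝 t] fun _ => 1 := by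
    filter_upwards [Iio_mem_nhds ht] with s hs
    exact en_bt_one (le_of_lt hs)
  rw [h.deriv_eq]; simp

theorem en_deriv_bt_high {t : ℝ} (ht : 2 < t) : deriv en_bt t = 0 := by
  have h : en_bt =ᶠ[𝓝 t] fun _ => 0 := by
    filter_upwards [Ioi_mem_nhds ht] with s hs
    exact en_bt_zero (le_of_lt hs)
  rw [h.deriv_eq]; simp

theorem en_exists_D : ∃ D : ℝ, 0 ≤ D ∧ ∀ t, |2 * t * deriv en_bt t| ≤ D := by
  have hc : Continuous fun t => 2 * t * deriv en_bt t :=
    (continuous_const.mul continuous_id).mul (en_contDiff_bt.continuous_deriv le_rfl)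
  have hs : HasCompactSupport fun t => 2 * t * deriv en_bt t := by
    refine HasCompactSupport.intro (isCompact_Icc (a := (1 : ℝ)) (b := 2)) fun t ht => ?_
    rw [Set.mem_Icc, not_and_or, not_le, not_le] at ht
    rcases ht with h | h
    · rw [en_deriv_bt_low h, mul_zero]
    · rw [en_deriv_bt_high h, mul_zero]
  obtain ⟨D, hD⟩ := hs.exists_bound_of_continuous hc
  exact ⟨D, le_trans (norm_nonneg _) (hD 0), hD⟩

/-- the cut-off at height `N` -/
noncomputable def en_chi (N : ℝ) (p : Pt m) : ℝ := en_bt (hgt p / N)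

theorem en_contDiff_chi (N : ℝ) : ContDiff ℝ 1 (en_chi N : Pt m → ℝ) :=
  en_contDiff_bt.comp (en_contDiff_hgt.div_const N)

theorem en_pd_chi (N : ℝ) (e p : Pt m) :
    pd e (en_cc (en_chi N)) p
      = ((deriv en_bt (hgt p / N) * (fderiv ℝ (hgt : Pt m → ℝ) p e / N) : ℝ) : ℂ) := by
  have h1 : HasDerivAt en_bt (deriv en_bt (hgt p / N)) (hgt p / N) :=
    (en_contDiff_bt.differentiable one_ne_zero _).hasDerivAt
  have hd : HasFDerivAt (hgt : Pt m → ℝ) (fderiv ℝ hgt p) p :=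
    (en_contDiff_hgt.differentiable one_ne_zero p).hasFDerivAt
  have h2 : HasFDerivAt (fun q : Pt m => hgt q / N) ((N⁻¹ : ℝ) • fderiv ℝ hgt p) p := by
    have := hd.const_smul (N⁻¹)
    refine this.congr_of_eventuallyEq (Filter.Eventually.of_forall fun q => ?_)
    simp [div_eq_inv_mul]
  have h3 := h1.comp_hasFDerivAt p h2
  have h4 := (Complex.ofRealCLM.hasFDerivAt (x := en_bt (hgt p / N))).comp p h3
  have h5 : fderiv ℝ (en_cc (en_chi N)) p = _ := h4.fderiv
  unfold pd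
  rw [h5]
  simp only [ContinuousLinearMap.comp_apply, smul_apply, Complex.ofRealCLM_apply, smul_eq_mul]
  rw [div_eq_inv_mul (fderiv ℝ hgt p e)]

/-- invariance of the cut-off inside the fundamental region -/
theorem en_chi_inv {M : AddSubgroup (V m)} {b : ℝ} (hb : 0 < b)
    (horb : ∀ w ∈ Orb M, ∀ p ∈ SD m, uval w p = 1 / hgt p ∨ b * hgt p ≤ uval w p)
    {a N : ℝ} (ha : 0 < a) (hN : 1 / (b * a) ≤ N)
    {γ : V m ≃ₗ[Q] V m} (hγ : γ ∈ Gam M) {p : Pt m} (hp : p ∈ SD m) (h1 : a ≤ hgt p)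
    (h2 : a ≤ hgt (act γ p)) : en_chi N (act γ p) = en_chi N p := by
  have hn0 : 0 < N := lt_of_lt_of_le (by positivity) hN
  have hp' : (0 : ℝ) < hgt p := hp
  have hγi : γ⁻¹ ∈ Gam M := (Gam M).inv_mem hγ
  have hact : (0 : ℝ) < hgt (act γ p) := act_mem hγ.1 hp
  have hu : 1 / hgt (act γ p) = uval (γ⁻¹ w0) p := by
    rw [← uval_act hγ.1 _ hp, uval_w0]
  rcases horb (γ⁻¹ w0) ⟨γ⁻¹, hγi, rfl⟩ p hp with h | hge
  · rw [h] at hu
    have h4 : hgt (act γ p) = hgt p := by
      have := one_div_one_div (hgt (act γ p))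
      rw [hu, one_div_one_div] at this
      exact this.symm
    unfold en_chi
    rw [h4]
  · have hprod : b * (hgt (act γ p) * hgt p) ≤ 1 := by
      rw [← hu, le_div_iff₀ hact] at hge
      linarith
    have hna : 1 ≤ N * (b * a) := by
      rw [div_le_iff₀ (by positivity)] at hN; exact hN
    have b1 : hgt (act γ p) ≤ N := by
      have h5 : hgt (act γ p) * a ≤ hgt (act γ p) * hgt p := mul_le_mul_of_nonneg_left h1 hact.le
      have h6 : b * (hgt (act γ p) * a) ≤ b * (hgt (act γ p) * hgt p) :=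
        mul_le_mul_of_nonneg_left h5 hb.le
      have h7 : (b * a) * hgt (act γ p) ≤ (b * a) * N := by linarith
      exact le_of_mul_le_mul_left h7 (by positivity)
    have b2 : hgt p ≤ N := by
      have h5 : a * hgt p ≤ hgt (act γ p) * hgt p := mul_le_mul_of_nonneg_right h2 hp'.le
      have h6 : b * (a * hgt p) ≤ b * (hgt (act γ p) * hgt p) :=
        mul_le_mul_of_nonneg_left h5 hb.le
      have h7 : (b * a) * hgt p ≤ (b * a) * N := by linarith
      exact le_of_mul_le_mul_left h7 (by positivity)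
    unfold en_chi
    rw [en_bt_one ((div_le_one hn0).mpr b1), en_bt_one ((div_le_one hn0).mpr b2)]

/-- pointwise Cauchy-Schwarz bound for the cut-off term -/
theorem en_cutoff_bound {ι : Type} [Fintype ι] (u : ι → Pt m → ℂ) {D : ℝ}
    (hD : ∀ t, |2 * t * deriv en_bt t| ≤ D) {N : ℝ} (hN : 0 < N) {ε : ℝ} (hε : 0 < ε)
    {p : Pt m} (hp : p ∈ SD m) :
    2 * (en_chi N p * ‖Gop u (en_cc (en_chi N)) p‖)
      ≤ ε * (en_chi N p ^ 2 * en_Bf u p) +
        ε⁻¹ * (D ^ 2 * (Set.indicator {q : Pt m | N ≤ hgt q} (en_Af u) p)) := by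
  have hp' : (0 : ℝ) < hgt p := hp
  have hχ : 0 ≤ en_chi N p := en_bt_nonneg _
  have hgd : ∀ i, ‖(starRingEnd ℂ) (u i p) * gdot (u i) (en_cc (en_chi N)) p‖
      = ‖u i p‖ * (hgt p * ‖pd (qu 0, 0) (u i) p‖) *
        |2 * (hgt p / N) * deriv en_bt (hgt p / N)| := by
    intro i
    have hq0 : (qu 0).re = 1 := rfl
    have hq1 : (qu 1).re = 0 := rfl
    have hq2 : (qu 2).re = 0 := rfl
    have hq3 : (qu 3).re = 0 := rfl
    unfold gdot
    simp only [en_XX_eq, en_pd_chi, en_fd_hgt_q, en_fd_hgt_X, Fin.sum_univ_four, hq0, hq1, hq2,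
      hq3, zero_div, mul_zero, neg_zero, Complex.ofReal_zero, add_zero, Finset.sum_const_zero,
      mul_one]
    rw [norm_mul, norm_mul, norm_mul, norm_pow, RCLike.norm_conj, Complex.norm_real,
      Complex.norm_real, Real.norm_eq_abs, Real.norm_eq_abs, abs_of_pos hp', abs_mul, abs_mul,
      abs_mul, abs_div, abs_div, abs_of_pos hp', abs_of_pos hN, abs_neg]
    field_simp
  have hsum : ‖Gop u (en_cc (en_chi N)) p‖
      ≤ ∑ i, ‖u i p‖ * (hgt p * ‖pd (qu 0, 0) (u i) p‖) *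
        |2 * (hgt p / N) * deriv en_bt (hgt p / N)| := by
    unfold Gop
    refine le_trans (norm_sum_le _ _) (Finset.sum_le_sum fun i _ => (hgd i).le)
  set d := |2 * (hgt p / N) * deriv en_bt (hgt p / N)| with hd
  have hd0 : 0 ≤ d := abs_nonneg _
  have hdD : d ≤ D := hD _
  have hdz : hgt p < N → d = 0 := by
    intro h
    have : hgt p / N < 1 := (div_lt_one hN).mpr h
    rw [hd, en_deriv_bt_low this, mul_zero, abs_zero]
  have hind : d ^ 2 * en_Af u p
      ≤ D ^ 2 * Set.indicator {q : Pt m | N ≤ hgt q} (en_Af u) p := by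
    by_cases h : N ≤ hgt p
    · rw [Set.indicator_of_mem (by exact h)]
      exact mul_le_mul_of_nonneg_right (pow_le_pow_left₀ hd0 hdD 2) (en_Af_nonneg u p)
    · rw [Set.indicator_of_notMem (by exact h), hdz (not_le.mp h)]
      simp
  have hterm : ∀ i, 2 * (en_chi N p * (‖u i p‖ * (hgt p * ‖pd (qu 0, 0) (u i) p‖) * d))
      ≤ ε * (en_chi N p ^ 2 * gsq (u i) p) + ε⁻¹ * (d ^ 2 * ‖u i p‖ ^ 2) := by
    intro i
    have hg : (hgt p * ‖pd (qu 0, 0) (u i) p‖) ^ 2 ≤ gsq (u i) p := by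
      unfold gsq
      rw [mul_pow, Fin.sum_univ_four]
      have h1 : 0 ≤ hgt p ^ 2 * ‖pd (qu 1, 0) (u i) p‖ ^ 2 := by positivity
      have h1' : 0 ≤ hgt p ^ 2 * ‖pd (qu 2, 0) (u i) p‖ ^ 2 := by positivity
      have h1'' : 0 ≤ hgt p ^ 2 * ‖pd (qu 3, 0) (u i) p‖ ^ 2 := by positivity
      have h2 : 0 ≤ hgt p * ∑ k : Fin m, ∑ r : Fin 4, ‖XX (ek k (qu r)) (u i) p‖ ^ 2 :=
        mul_nonneg hp'.le (Finset.sum_nonneg fun _ _ => Finset.sum_nonneg fun _ _ => by positivity)
      linarith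
    set x := en_chi N p * (hgt p * ‖pd (qu 0, 0) (u i) p‖) with hx
    set y := ‖u i p‖ * d with hy
    have hxy : 2 * (x * y) ≤ ε * x ^ 2 + ε⁻¹ * y ^ 2 := by
      have h1 : 0 ≤ ε⁻¹ * (ε * x - y) ^ 2 := by positivity
      have h2 : ε⁻¹ * (ε * x - y) ^ 2 = ε * x ^ 2 - 2 * (x * y) + ε⁻¹ * y ^ 2 := by
        field_simp
        ring
      linarith
    have h3 : x ^ 2 ≤ en_chi N p ^ 2 * gsq (u i) p := by
      rw [hx, mul_pow]
      exact mul_le_mul_of_nonneg_left hg (by positivity)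
    have h4 : ε * x ^ 2 ≤ ε * (en_chi N p ^ 2 * gsq (u i) p) :=
      mul_le_mul_of_nonneg_left h3 hε.le
    calc 2 * (en_chi N p * (‖u i p‖ * (hgt p * ‖pd (qu 0, 0) (u i) p‖) * d)) = 2 * (x * y) := by
          rw [hx, hy]; ring
      _ ≤ ε * x ^ 2 + ε⁻¹ * y ^ 2 := hxy
      _ ≤ ε * (en_chi N p ^ 2 * gsq (u i) p) + ε⁻¹ * y ^ 2 := by linarith
      _ = _ := by rw [hy]; ring
  calc 2 * (en_chi N p * ‖Gop u (en_cc (en_chi N)) p‖)
      ≤ 2 * (en_chi N p * ∑ i, ‖u i p‖ * (hgt p * ‖pd (qu 0, 0) (u i) p‖) * d) := by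
        have := mul_le_mul_of_nonneg_left hsum hχ
        linarith
    _ = ∑ i, 2 * (en_chi N p * (‖u i p‖ * (hgt p * ‖pd (qu 0, 0) (u i) p‖) * d)) := by
        rw [Finset.mul_sum, Finset.mul_sum]
    _ ≤ ∑ i, (ε * (en_chi N p ^ 2 * gsq (u i) p) + ε⁻¹ * (d ^ 2 * ‖u i p‖ ^ 2)) :=
        Finset.sum_le_sum fun i _ => hterm i
    _ = ε * (en_chi N p ^ 2 * en_Bf u p) + ε⁻¹ * (d ^ 2 * en_Af u p) := by
        rw [Finset.sum_add_distrib, ← Finset.mul_sum, ← Finset.mul_sum, ← Finset.mul_sum,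
          ← Finset.mul_sum]
        rfl
    _ ≤ _ := by
        have := mul_le_mul_of_nonneg_left hind (inv_pos.mpr hε).le
        linarith

theorem en_ofReal_aem {f : Pt m → ℝ} (hf : ContinuousOn f (SD m)) : AEMeasurable f (hyp m) := by
  have h : AEMeasurable f (volume.restrict (SD m)) := hf.aemeasurable isOpen_SD.measurableSet
  unfold hyp
  exact h.mono_ac (withDensity_absolutelyContinuous _ _)

/-- the basic inequality at cut-off height `N`: for every `ε > 0` both the real and the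
imaginary part of the energy identity are controlled -/
theorem en_basic {M : AddSubgroup (V m)} {b : ℝ} (hb0 : 0 < b)
    (horb : ∀ w ∈ Orb M, ∀ p ∈ SD m, uval w p = 1 / hgt p ∨ b * hgt p ≤ uval w p)
    {κ : Pt m → ℝ} {C a : ℝ} (hK : Kap M κ C a)
    {ι : Type} [Fintype ι] {u : ι → Pt m → ℂ} (hS : Sys M ι u)
    (hUZ : ∀ (w : Pt m → ℝ) (ρ : ℝ), Continuous w → (∀ p, w p ≠ 0 → hgt p ≤ ρ) →
      (∀ γ ∈ Gam M, ∀ p ∈ SD m, a ≤ hgt p → a ≤ hgt (act γ p) → w (act γ p) = w p) →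
      ∫ p, (w p : ℂ) * Gop u (fun q => (κ q : ℂ)) p ∂(hyp m) = 0) {lam : ℂ}
    (heig : ∀ i, WeakEig lam (u i)) {D : ℝ} (hD : ∀ t, |2 * t * deriv en_bt t| ≤ D)
    (hA : Integrable (fun p => κ p * en_Af u p) (hyp m)) {N : ℝ} (hN : 1 / (b * a) ≤ N) {ε : ℝ} (hε : 0 < ε) :
    ∃ c : ℂ,
      ((∫ p, κ p * en_chi N p ^ 2 * en_Bf u p ∂(hyp m) : ℝ) : ℂ) + c
        = lam * ((∫ p, κ p * en_chi N p ^ 2 * en_Af u p ∂(hyp m) : ℝ) : ℂ) ∧
      ‖c‖ ≤ ε * (∫ p, κ p * en_chi N p ^ 2 * en_Bf u p ∂(hyp m))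
        + ε⁻¹ * (D ^ 2 * ∫ p, Set.indicator {q : Pt m | N ≤ hgt q} (fun q => κ q * en_Af u q) p ∂(hyp m)) := by
  have ha := hK.pos
  have hba : 0 < 1 / (b * a) := by positivity
  have hn0 : 0 < N := lt_of_lt_of_le hba hN
  have hu := en_smooth1 hS
  set K := en_box m C a (2 * N) with hKdef
  have hKc : IsCompact K := en_isCompact_box _ _ _
  have hKU : K ⊆ (SD m) := en_box_subset ha
  set η : Pt m → ℝ := fun p => κ p * en_chi N p ^ 2 with hη
  have hχC : ContDiff ℝ 1 (en_chi N : Pt m → ℝ) := en_contDiff_chi N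
  have hηC : ContDiff ℝ 1 η := hK.smooth.mul (hχC.pow 2)
  have hη0 : ∀ p, p ∉ K → η p = 0 := by
    intro p hp
    by_contra hne
    have h1 : κ p ≠ 0 := fun h => hne (by simp only [hη]; rw [h, zero_mul])
    have h2 : en_chi N p ≠ 0 := fun h => hne (by simp only [hη]; rw [h]; simp)
    have h3 : hgt p ≤ 2 * N := by
      by_contra h
      push Not at h
      exact h2 (en_bt_zero ((le_div_iff₀ hn0).mpr h.le))
    exact hp ⟨(hK.supp p h1).1, (hK.supp p h1).2.1, (hK.supp p h1).2.2, h3⟩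
  have hid := en_energy_identity hu heig hηC hKc hKU hη0
  have hκU : ContDiffOn ℝ 1 (en_cc κ) (SD m) := (en_contDiff_cc hK.smooth).contDiffOn
  have hχU : ContDiffOn ℝ 1 (en_cc (en_chi N)) (SD m) := (en_contDiff_cc hχC).contDiffOn
  have hG1 : ContinuousOn (Gop u (en_cc κ)) (SD m) := en_continuousOn_Gop hu hκU
  have hG2 : ContinuousOn (Gop u (en_cc (en_chi N))) (SD m) := en_continuousOn_Gop hu hχU
  have hcχ : ContinuousOn (fun p => ((en_chi N p : ℝ) : ℂ)) (SD m) :=
    (Complex.continuous_ofReal.comp hχC.continuous).continuousOn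
  have hcκ : ContinuousOn (fun p => ((κ p : ℝ) : ℂ)) (SD m) :=
    (Complex.continuous_ofReal.comp hK.smooth.continuous).continuousOn
  -- Leibniz
  have hleib : ∀ p ∈ (SD m), Gop u (en_cc η) p
      = (((en_chi N p ^ 2 : ℝ)) : ℂ) * Gop u (en_cc κ) p
        + 2 * (κ p : ℂ) * (en_chi N p : ℂ) * Gop u (en_cc (en_chi N)) p := by
    intro p hp
    have d1 : DifferentiableAt ℝ (en_cc κ) p := en_differentiableAt_of hκU hp
    have d2 : DifferentiableAt ℝ (en_cc (en_chi N)) p := en_differentiableAt_of hχU hp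
    have e0 : en_cc η = fun q => en_cc κ q * (en_cc (en_chi N) q * en_cc (en_chi N) q) := by
      funext q
      simp only [en_cc, hη]
      push_cast
      ring
    have d3 : DifferentiableAt ℝ (fun q => en_cc (en_chi N) q * en_cc (en_chi N) q) p := d2.mul d2
    rw [e0, en_Gop_mul u d1 d3, en_Gop_mul u d2 d2]
    simp only [en_cc]
    push_cast
    ring
  -- the three integrals
  have hoffκ : ∀ p, p ∉ K → (((en_chi N p ^ 2 : ℝ)) : ℂ) * Gop u (en_cc κ) p = 0 := by
    intro p hp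
    by_contra hne
    have h1 : Gop u (en_cc κ) p ≠ 0 := fun h => hne (by rw [h, mul_zero])
    have h2 : en_chi N p ≠ 0 := fun h => hne (by rw [h]; simp)
    have h3 : hgt p ≤ 2 * N := by
      by_contra h
      push Not at h
      exact h2 (en_bt_zero ((le_div_iff₀ hn0).mpr h.le))
    have h4 : p ∈ Sieg m C a := by
      by_contra h
      exact h1 (en_Gop_kap_off hK u h)
    exact hp ⟨h4.1, h4.2.1, h4.2.2, h3⟩
  have hi1 : Integrable (fun p => (((en_chi N p ^ 2 : ℝ)) : ℂ) * Gop u (en_cc κ) p) (hyp m) := by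
    refine en_integrable_hyp hKc hKU ?_ hoffκ
    refine ContinuousOn.mul ?_ hG1
    exact (Complex.continuous_ofReal.comp (hχC.continuous.pow 2)).continuousOn
  have hi2 : Integrable (fun p => 2 * (κ p : ℂ) * (en_chi N p : ℂ) * Gop u (en_cc (en_chi N)) p) (hyp m) := by
    refine en_integrable_hyp hKc hKU (((continuousOn_const.mul hcκ).mul hcχ).mul hG2) ?_
    intro p hp
    have h1 := hη0 p hp
    simp only [hη] at h1
    rcases mul_eq_zero.mp h1 with h | h
    · rw [h]; simp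
    · have : en_chi N p = 0 := by simpa using h
      rw [this]; simp
  have hBi : Integrable (fun p => η p * en_Bf u p) (hyp m) :=
    en_integrable_hyp hKc hKU (hηC.continuous.continuousOn.mul (en_continuousOn_Bf hu)) fun p hp => by
      rw [hη0 p hp, zero_mul]
  have hi3 : Integrable (fun p => (η p : ℂ) * (en_Bf u p : ℂ)) (hyp m) := by
    have := hBi.ofReal (𝕜 := ℂ)
    refine this.congr (Eventually.of_forall fun p => ?_)
    push_cast
    rfl
  have hz : ∫ p, (((en_chi N p ^ 2 : ℝ)) : ℂ) * Gop u (en_cc κ) p ∂(hyp m) = 0 := by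
    refine hUZ (fun p => en_chi N p ^ 2) (2 * N) (hχC.continuous.pow 2) ?_ ?_
    · intro p hp
      by_contra h
      push Not at h
      apply hp
      have : en_chi N p = 0 := en_bt_zero ((le_div_iff₀ hn0).mpr h.le)
      rw [this]; norm_num
    · intro γ hγ p hp h1 h2
      rw [en_chi_inv hb0 horb ha hN hγ hp h1 h2]
  refine ⟨∫ p, 2 * (κ p : ℂ) * (en_chi N p : ℂ) * Gop u (en_cc (en_chi N)) p ∂(hyp m), ?_, ?_⟩
  · have hsplit : ∫ p, (Gop u (en_cc η) p + (η p : ℂ) * (en_Bf u p : ℂ)) ∂(hyp m)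
        = (∫ p, (((en_chi N p ^ 2 : ℝ)) : ℂ) * Gop u (en_cc κ) p ∂(hyp m))
          + (∫ p, 2 * (κ p : ℂ) * (en_chi N p : ℂ) * Gop u (en_cc (en_chi N)) p ∂(hyp m))
          + ∫ p, (η p : ℂ) * (en_Bf u p : ℂ) ∂(hyp m) := by
      rw [en_integral_add3 hi1 hi2 hi3]
      refine integral_congr_ae ?_
      filter_upwards [ae_hyp_mem] with p hp
      rw [hleib p hp]
    have eB : ∫ p, (η p : ℂ) * (en_Bf u p : ℂ) ∂(hyp m) = ((∫ p, η p * en_Bf u p ∂(hyp m) : ℝ) : ℂ) := by
      rw [← integral_complex_ofReal]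
      refine integral_congr_ae (Eventually.of_forall fun p => ?_)
      simp
    have eA : ∫ p, (η p : ℂ) * (en_Af u p : ℂ) ∂(hyp m) = ((∫ p, η p * en_Af u p ∂(hyp m) : ℝ) : ℂ) := by
      rw [← integral_complex_ofReal]
      refine integral_congr_ae (Eventually.of_forall fun p => ?_)
      simp
    rw [hsplit, hz, zero_add, eB, eA] at hid
    rw [add_comm] at hid
    exact hid
  · have hindi : Integrable (fun p => Set.indicator {q : Pt m | N ≤ hgt q} (fun q => κ q * en_Af u q) p)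
        (hyp m) := hA.indicator (measurableSet_le measurable_const continuous_hgt.measurable)
    calc ‖∫ p, 2 * (κ p : ℂ) * (en_chi N p : ℂ) * Gop u (en_cc (en_chi N)) p ∂(hyp m)‖
        ≤ ∫ p, ‖2 * (κ p : ℂ) * (en_chi N p : ℂ) * Gop u (en_cc (en_chi N)) p‖ ∂(hyp m) :=
          norm_integral_le_integral_norm _
      _ ≤ ∫ p, (ε * (η p * en_Bf u p) + ε⁻¹ * (D ^ 2 *
            Set.indicator {q : Pt m | N ≤ hgt q} (fun q => κ q * en_Af u q) p)) ∂(hyp m) := by
          refine integral_mono_ae hi2.norm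
            ((hBi.const_mul ε).add ((hindi.const_mul (D ^ 2)).const_mul ε⁻¹)) ?_
          filter_upwards [ae_hyp_mem] with p hp
          have hb := en_cutoff_bound u hD hn0 hε hp
          have hκ0 := hK.nonneg p
          have hχ0 : 0 ≤ en_chi N p := en_bt_nonneg _
          have hb' := mul_le_mul_of_nonneg_left hb hκ0
          have e1' : ‖2 * (κ p : ℂ) * (en_chi N p : ℂ) * Gop u (en_cc (en_chi N)) p‖
              = κ p * (2 * (en_chi N p * ‖Gop u (en_cc (en_chi N)) p‖)) := by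
            rw [norm_mul, norm_mul, norm_mul, Complex.norm_real, Complex.norm_real,
              Real.norm_eq_abs, Real.norm_eq_abs, abs_of_nonneg hκ0, abs_of_nonneg hχ0]
            simp only [Complex.norm_ofNat]
            ring
          have e2' : Set.indicator {q : Pt m | N ≤ hgt q} (fun q => κ q * en_Af u q) p
              = κ p * Set.indicator {q : Pt m | N ≤ hgt q} (en_Af u) p := by
            by_cases h : p ∈ {q : Pt m | N ≤ hgt q}
            · rw [Set.indicator_of_mem h, Set.indicator_of_mem h]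
            · rw [Set.indicator_of_notMem h, Set.indicator_of_notMem h, mul_zero]
          rw [e1', e2']
          refine le_trans hb' (le_of_eq ?_)
          simp only [hη]
          ring
      _ = _ := by
          rw [integral_add (hBi.const_mul ε) ((hindi.const_mul (D ^ 2)).const_mul ε⁻¹),
            integral_const_mul, integral_const_mul, integral_const_mul]

theorem en_aesm_real {f : Pt m → ℝ} (hf : ContinuousOn f (SD m)) : AEStronglyMeasurable f (hyp m) :=
  (en_ofReal_aem hf).aestronglyMeasurable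

theorem en_chi_eventually (p : Pt m) : ∀ᶠ k : ℕ in atTop, en_chi (k : ℝ) p = 1 := by
  obtain ⟨N, hN⟩ := exists_nat_ge (max (hgt p) 1)
  filter_upwards [eventually_ge_atTop N] with k hk
  have h1 : (N : ℝ) ≤ k := by exact_mod_cast hk
  have h2 : hgt p ≤ k := le_trans (le_trans (le_max_left _ _) hN) h1
  have h3 : (0 : ℝ) < k := lt_of_lt_of_le one_pos (le_trans (le_trans (le_max_right _ _) hN) h1)
  exact en_bt_one ((div_le_one h3).mpr h2)

theorem en_energy_aux {M : AddSubgroup (V m)} {b : ℝ} (hb0 : 0 < b)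
    (horb : ∀ w ∈ Orb M, ∀ p ∈ SD m, uval w p = 1 / hgt p ∨ b * hgt p ≤ uval w p)
    {κ : Pt m → ℝ} {C a : ℝ} (hK : Kap M κ C a)
    {ι : Type} [Fintype ι] {u : ι → Pt m → ℂ} (hS : Sys M ι u)
    (hUZ : ∀ (w : Pt m → ℝ) (ρ : ℝ), Continuous w → (∀ p, w p ≠ 0 → hgt p ≤ ρ) →
      (∀ γ ∈ Gam M, ∀ p ∈ SD m, a ≤ hgt p → a ≤ hgt (act γ p) → w (act γ p) = w p) →
      ∫ p, (w p : ℂ) * Gop u (fun q => (κ q : ℂ)) p ∂(hyp m) = 0) (lam : ℂ)
    (heig : ∀ i, WeakEig lam (u i))
    (hfin : ∫⁻ p, ENNReal.ofReal (κ p) * ENNReal.ofReal (∑ i, ‖u i p‖ ^ 2) ∂(hyp m) ≠ ⊤) :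
    (∫⁻ p, ENNReal.ofReal (κ p) * ENNReal.ofReal (∑ i, gsq (u i) p) ∂(hyp m)
      ≤ ENNReal.ofReal lam.re *
        ∫⁻ p, ENNReal.ofReal (κ p) * ENNReal.ofReal (∑ i, ‖u i p‖ ^ 2) ∂(hyp m)) ∧
    (lam.im = 0 ∨
      ∫⁻ p, ENNReal.ofReal (κ p) * ENNReal.ofReal (∑ i, ‖u i p‖ ^ 2) ∂(hyp m) = 0) := by
  have ha := hK.pos
  have hu := en_smooth1 hS
  have hκ0 := hK.nonneg
  have hκc : ContinuousOn κ (SD m) := hK.smooth.continuous.continuousOn
  have hAc := en_continuousOn_Af hu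
  have hBc := en_continuousOn_Bf hu
  have hχc : ∀ N : ℝ, ContinuousOn (en_chi N) (SD m) := fun N => (en_contDiff_chi N).continuous.continuousOn
  have hχ0 : ∀ (N : ℝ) (p : Pt m), 0 ≤ en_chi N p := fun N p => en_bt_nonneg _
  have hχ1 : ∀ (N : ℝ) (p : Pt m), en_chi N p ≤ 1 := fun N p => en_bt_le_one _
  obtain ⟨D, -, hD⟩ := en_exists_D
  -- conversion of the lower integrals
  have eA : ∀ p, ENNReal.ofReal (κ p) * ENNReal.ofReal (∑ i, ‖u i p‖ ^ 2)
      = ENNReal.ofReal (κ p * en_Af u p) := fun p => (ENNReal.ofReal_mul (hκ0 p)).symm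
  have eB : ∀ p, ENNReal.ofReal (κ p) * ENNReal.ofReal (∑ i, gsq (u i) p)
      = ENNReal.ofReal (κ p * en_Bf u p) := fun p => (ENNReal.ofReal_mul (hκ0 p)).symm
  simp only [eA] at hfin
  simp only [eA, eB]
  have hκA0 : ∀ p, 0 ≤ κ p * en_Af u p := fun p => mul_nonneg (hκ0 p) (en_Af_nonneg u p)
  have hA : Integrable (fun p => κ p * en_Af u p) (hyp m) :=
    (lintegral_ofReal_ne_top_iff_integrable (en_aesm_real (hκc.mul hAc))
      (Eventually.of_forall hκA0)).mp hfin
  set S : ℝ := ∫ p, κ p * en_Af u p ∂(hyp m) with hSdef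
  have hS0 : 0 ≤ S := integral_nonneg hκA0
  have hSA : ∫⁻ p, ENNReal.ofReal (κ p * en_Af u p) ∂(hyp m) = ENNReal.ofReal S :=
    (ofReal_integral_eq_lintegral_ofReal hA (Eventually.of_forall hκA0)).symm
  rw [hSA]
  -- sequences
  set aa : ℕ → ℝ := fun k => ∫ p, κ p * en_chi k p ^ 2 * en_Af u p ∂(hyp m) with haa
  set bb : ℕ → ℝ := fun k => ∫ p, κ p * en_chi k p ^ 2 * en_Bf u p ∂(hyp m) with hbb
  set tt : ℕ → ℝ := fun k =>
    ∫ p, Set.indicator {q : Pt m | (k : ℝ) ≤ hgt q} (fun q => κ q * en_Af u q) p ∂(hyp m) with htt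
  have hchi2 : ∀ (N : ℝ) (p : Pt m), en_chi N p ^ 2 ≤ 1 := fun N p => by
    have h1 := hχ0 N p
    have h2 := hχ1 N p
    nlinarith
  have hta : Tendsto aa atTop (𝓝 S) := by
    refine tendsto_integral_of_dominated_convergence (fun p => κ p * en_Af u p) ?_ hA ?_ ?_
    · intro k
      exact en_aesm_real ((hκc.mul ((hχc _).pow 2)).mul hAc)
    · intro k
      refine Eventually.of_forall fun p => ?_
      rw [Real.norm_eq_abs, abs_of_nonneg (mul_nonneg (mul_nonneg (hκ0 p) (by positivity))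
        (en_Af_nonneg u p))]
      have h1 : κ p * en_chi k p ^ 2 ≤ κ p * 1 := mul_le_mul_of_nonneg_left (hchi2 _ p) (hκ0 p)
      have h2 := mul_le_mul_of_nonneg_right h1 (en_Af_nonneg u p)
      rwa [mul_one] at h2
    · refine Eventually.of_forall fun p => ?_
      refine tendsto_const_nhds.congr' ?_
      filter_upwards [en_chi_eventually p] with k hk
      rw [hk]; ring
  have htt0 : Tendsto tt atTop (𝓝 0) := by
    have hms : ∀ k : ℕ, MeasurableSet {q : Pt m | (k : ℝ) ≤ hgt q} := fun k =>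
      measurableSet_le measurable_const continuous_hgt.measurable
    have h0 : ∫ p, (0 : ℝ) ∂(hyp m) = 0 := integral_zero (Pt m) ℝ
    rw [← h0]
    refine tendsto_integral_of_dominated_convergence (fun p => κ p * en_Af u p) ?_ hA ?_ ?_
    · intro k
      exact (hA.indicator (hms k)).aestronglyMeasurable
    · intro k
      refine Eventually.of_forall fun p => ?_
      by_cases h : p ∈ {q : Pt m | (k : ℝ) ≤ hgt q}
      · rw [Set.indicator_of_mem h, Real.norm_eq_abs, abs_of_nonneg (hκA0 p)]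
      · rw [Set.indicator_of_notMem h, norm_zero]
        exact hκA0 p
    · refine Eventually.of_forall fun p => ?_
      refine tendsto_const_nhds.congr' ?_
      obtain ⟨N, hN⟩ := exists_nat_gt (hgt p)
      filter_upwards [eventually_ge_atTop N] with k hk
      have h1 : (N : ℝ) ≤ k := by exact_mod_cast hk
      rw [Set.indicator_of_notMem]
      intro h
      have : (k : ℝ) ≤ hgt p := h
      linarith
  have haa0 : ∀ k, 0 ≤ aa k := fun k => integral_nonneg fun p =>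
    mul_nonneg (mul_nonneg (hκ0 p) (by positivity)) (en_Af_nonneg u p)
  have hbb0 : ∀ k, 0 ≤ bb k := fun k => integral_nonneg_of_ae (by
    filter_upwards [ae_hyp_mem] with p hp
    exact mul_nonneg (mul_nonneg (hκ0 p) (by positivity)) (en_Bf_nonneg u hp))
  have hev : ∀ᶠ k : ℕ in atTop, 1 / (b * a) ≤ (k : ℝ) := by
    obtain ⟨N, hN⟩ := exists_nat_ge (1 / (b * a))
    filter_upwards [eventually_ge_atTop N] with k hk
    exact le_trans hN (by exact_mod_cast hk)
  -- consequences of the basic inequality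
  have hre : ∀ ε : ℝ, 0 < ε → ∀ k : ℕ, 1 / (b * a) ≤ (k : ℝ) →
      (1 - ε) * bb k ≤ lam.re * aa k + ε⁻¹ * (D ^ 2 * tt k) ∧
      |lam.im| * aa k ≤ ε * bb k + ε⁻¹ * (D ^ 2 * tt k) := by
    intro ε hε k hk
    obtain ⟨c, hc1, hc2⟩ := en_basic hb0 horb hK hS hUZ heig hD hA hk hε
    have r1 : bb k + c.re = lam.re * aa k := by
      have := congrArg Complex.re hc1
      simpa using this
    have r2 : c.im = lam.im * aa k := by
      have := congrArg Complex.im hc1
      simpa using this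
    have hcre : |c.re| ≤ ‖c‖ := Complex.abs_re_le_norm c
    have hcim : |c.im| ≤ ‖c‖ := Complex.abs_im_le_norm c
    constructor
    · have h1 : -c.re ≤ |c.re| := neg_le_abs _
      have h2 : -c.re ≤ ε * bb k + ε⁻¹ * (D ^ 2 * tt k) := le_trans h1 (le_trans hcre hc2)
      linarith
    · rw [r2, abs_mul, abs_of_nonneg (haa0 k)] at hcim
      exact le_trans hcim hc2
  -- integrability of the cut-off energies
  have hBi : ∀ k : ℕ, 1 / (b * a) ≤ (k : ℝ) →
      Integrable (fun p => κ p * en_chi k p ^ 2 * en_Bf u p) (hyp m) := by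
    intro k hk
    have hba : 0 < 1 / (b * a) := by positivity
    have hn0 : (0 : ℝ) < k := lt_of_lt_of_le hba hk
    refine en_integrable_hyp (en_isCompact_box C a (2 * k)) (en_box_subset ha)
      ((hκc.mul ((hχc _).pow 2)).mul hBc) ?_
    intro p hp
    by_contra hne
    have h1 : κ p ≠ 0 := fun h => hne (by rw [h, zero_mul, zero_mul])
    have h2 : en_chi k p ≠ 0 := fun h => hne (by rw [h]; simp)
    have h3 : hgt p ≤ 2 * k := by
      by_contra h
      push Not at h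
      exact h2 (en_bt_zero ((le_div_iff₀ hn0).mpr h.le))
    exact hp ⟨(hK.supp p h1).1, (hK.supp p h1).2.1, (hK.supp p h1).2.2, h3⟩
  have hfatou : ∀ M1 : ℝ, ∀ Ms : ℕ → ℝ, Tendsto Ms atTop (𝓝 M1) →
      (∀ᶠ k : ℕ in atTop, bb k ≤ Ms k) →
      ∫⁻ p, ENNReal.ofReal (κ p * en_Bf u p) ∂(hyp m) ≤ ENNReal.ofReal M1 := by
    intro M1 Ms hMs hle
    have h1 : ∫⁻ p, ENNReal.ofReal (κ p * en_Bf u p) ∂(hyp m)
        = ∫⁻ p, liminf (fun k : ℕ => ENNReal.ofReal (κ p * en_chi k p ^ 2 * en_Bf u p)) atTop ∂(hyp m) := by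
      refine lintegral_congr fun p => ?_
      symm
      refine Tendsto.liminf_eq (tendsto_const_nhds.congr' ?_)
      filter_upwards [en_chi_eventually p] with k hk
      rw [hk]
      congr 1
      ring
    have h2 : ∫⁻ p, liminf (fun k : ℕ => ENNReal.ofReal (κ p * en_chi k p ^ 2 * en_Bf u p)) atTop ∂(hyp m)
        ≤ liminf (fun k : ℕ => ∫⁻ p, ENNReal.ofReal (κ p * en_chi k p ^ 2 * en_Bf u p) ∂(hyp m)) atTop :=
      lintegral_liminf_le' fun k => (en_ofReal_aem ((hκc.mul ((hχc _).pow 2)).mul hBc)).ennreal_ofReal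
    have h3 : liminf (fun k : ℕ => ∫⁻ p, ENNReal.ofReal (κ p * en_chi k p ^ 2 * en_Bf u p) ∂(hyp m)) atTop
        ≤ liminf (fun k : ℕ => ENNReal.ofReal (Ms k)) atTop := by
      refine liminf_le_liminf ?_
      filter_upwards [hle, hev] with k hk hk2
      rw [← ofReal_integral_eq_lintegral_ofReal (hBi k hk2) (by
        filter_upwards [ae_hyp_mem] with p hp
        exact mul_nonneg (mul_nonneg (hκ0 p) (by positivity)) (en_Bf_nonneg u hp))]
      exact ENNReal.ofReal_le_ofReal hk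
    have h4 : liminf (fun k : ℕ => ENNReal.ofReal (Ms k)) atTop = ENNReal.ofReal M1 :=
      ((ENNReal.continuous_ofReal.tendsto M1).comp hMs).liminf_eq
    rw [h1]
    exact le_trans h2 (le_trans h3 h4.le)
  have hMk : ∀ ε : ℝ, Tendsto (fun k => lam.re * aa k + ε⁻¹ * (D ^ 2 * tt k)) atTop
      (𝓝 (lam.re * S)) := by
    intro ε
    have := (hta.const_mul lam.re).add ((htt0.const_mul (D ^ 2)).const_mul ε⁻¹)
    simpa using this
  constructor
  · have hall : ∀ ε : ℝ, 0 < ε → ε < 1 → ∫⁻ p, ENNReal.ofReal (κ p * en_Bf u p) ∂(hyp m)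
        ≤ ENNReal.ofReal ((1 - ε)⁻¹ * (lam.re * S)) := by
      intro ε hε hε1
      refine hfatou _ (fun k => (1 - ε)⁻¹ * (lam.re * aa k + ε⁻¹ * (D ^ 2 * tt k)))
        ((hMk ε).const_mul _) ?_
      filter_upwards [hev] with k hk
      have h1 := (hre ε hε k hk).1
      have h2 : 0 < 1 - ε := by linarith
      rw [← div_eq_inv_mul, le_div_iff₀ h2]
      linarith
    have hlim : Tendsto (fun ε : ℝ => ENNReal.ofReal ((1 - ε)⁻¹ * (lam.re * S))) (𝓝[>] 0)
        (𝓝 (ENNReal.ofReal (lam.re * S))) := by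
      have h1 : Tendsto (fun ε : ℝ => (1 - ε)⁻¹ * (lam.re * S)) (𝓝 0)
          (𝓝 ((1 - 0)⁻¹ * (lam.re * S))) := by
        refine Tendsto.mul_const _ (Tendsto.inv₀ (tendsto_const_nhds.sub tendsto_id) ?_)
        norm_num
      have h2 : (1 - 0 : ℝ)⁻¹ * (lam.re * S) = lam.re * S := by norm_num
      rw [h2] at h1
      exact (ENNReal.continuous_ofReal.tendsto _).comp (h1.mono_left nhdsWithin_le_nhds)
    have hfinal : ∫⁻ p, ENNReal.ofReal (κ p * en_Bf u p) ∂(hyp m) ≤ ENNReal.ofReal (lam.re * S) := by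
      refine ge_of_tendsto hlim ?_
      filter_upwards [Ioo_mem_nhdsGT (zero_lt_one' ℝ)] with ε hε
      exact hall ε hε.1 hε.2
    rwa [ENNReal.ofReal_mul' hS0] at hfinal
  · have hall : ∀ ε : ℝ, 0 < ε → |lam.im| * S ≤ ε * (2 * (lam.re * S)) := by
      intro ε hε
      have h1 : ∀ᶠ k : ℕ in atTop, |lam.im| * aa k ≤
          ε * (2 * (lam.re * aa k + (1 / 2 : ℝ)⁻¹ * (D ^ 2 * tt k))) + ε⁻¹ * (D ^ 2 * tt k) := by
        filter_upwards [hev] with k hk
        have k1 := (hre (1 / 2) (by norm_num) k hk).1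
        have k2 := (hre ε hε k hk).2
        have k3 : bb k ≤ 2 * (lam.re * aa k + (1 / 2 : ℝ)⁻¹ * (D ^ 2 * tt k)) := by linarith
        have k4 := mul_le_mul_of_nonneg_left k3 hε.le
        linarith
      have h2 : Tendsto (fun k => ε * (2 * (lam.re * aa k + (1 / 2 : ℝ)⁻¹ * (D ^ 2 * tt k)))
          + ε⁻¹ * (D ^ 2 * tt k)) atTop (𝓝 (ε * (2 * (lam.re * S)))) := by
        have := (((hMk (1 / 2)).const_mul 2).const_mul ε).add
          ((htt0.const_mul (D ^ 2)).const_mul ε⁻¹)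
        simpa using this
      exact le_of_tendsto_of_tendsto (hta.const_mul _) h2 h1
    have hz : |lam.im| * S ≤ 0 := by
      have hlim : Tendsto (fun ε : ℝ => ε * (2 * (lam.re * S))) (𝓝[>] 0) (𝓝 0) := by
        have h1 : Tendsto (fun ε : ℝ => ε * (2 * (lam.re * S))) (𝓝 0)
            (𝓝 (0 * (2 * (lam.re * S)))) := tendsto_id.mul_const _
        rw [zero_mul] at h1
        exact h1.mono_left nhdsWithin_le_nhds
      refine ge_of_tendsto hlim ?_
      filter_upwards [self_mem_nhdsWithin] with ε hε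
      exact hall ε hε
    have hz2 : |lam.im| * S = 0 := le_antisymm hz (mul_nonneg (abs_nonneg _) hS0)
    rcases mul_eq_zero.mp hz2 with h | h
    · left; exact abs_eq_zero.mp h
    · right; rw [h, ENNReal.ofReal_zero]


theorem st_EN (hU : ST_UZ) (hO : ST_ORBC) : ST_EN := by
  intro m M hM κ C a hK ι _ u hS lam heig hfin
  obtain ⟨b, hb, horb⟩ := hO m M hM
  exact en_energy_aux hb horb hK hS
    (fun w ρ hw hw0 hwi => hU m M hM κ C a hK ι _ u hS w ρ hw hw0 hwi) lam heig hfin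

end Pool.Agent.Helper19.Qh
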