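import Pool.Agent.Helper19.Qh.Stmts

set_option autoImplicit false

/-!
# Module EN of MP_8410ab_nt (quaternionic family): calculus on the Siegel domain
(port of the corresponding file of the unitary family)
-/

namespace Pool.Agent.Helper19.Qh

open MeasureTheory Topology Filter
open scoped ComplexConjugate

variable {m : ℕ}

/-- the real part as a continuous linear form -/
noncomputable def en_reL : Q →L[ℝ] ℝ := innerSL ℝ (1 : Q)

theorem en_reL_apply (q : Q) : en_reL q = q.re := by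
  unfold en_reL
  rw [innerSL_apply_apply, Quaternion.inner_def, one_mul, Quaternion.re_star]

theorem en_contDiff_hgt {n : WithTop ℕ∞} : ContDiff ℝ n (hgt : Pt m → ℝ) := by
  have h1 : ContDiff ℝ n fun p : Pt m => p.1.re := by
    have h := en_reL.contDiff.comp (contDiff_fst (𝕜 := ℝ) (E := Q) (F := E m) (n := n))
    have e : (fun p : Pt m => p.1.re) = en_reL ∘ Prod.fst := by
      funext p
      exact (en_reL_apply p.1).symm
    rw [e]
    exact h
  have h2 : ContDiff ℝ n fun p : Pt m => ‖p.2‖ ^ 2 := contDiff_snd.norm_sq ℝ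
  exact ((contDiff_const.mul h1).add h2).neg

/-! ## functions supported in compact subsets of the Siegel domain -/

theorem en_continuous_of_SD {F : Type*} [TopologicalSpace F] [Zero F] {f : Pt m → F}
    {K : Set (Pt m)} (hK : IsClosed K) (hKU : K ⊆ SD m) (hf : ContinuousOn f (SD m))
    (h0 : ∀ p, p ∉ K → f p = 0) : Continuous f := by
  rw [continuous_iff_continuousAt]
  intro p
  by_cases hp : p ∈ SD m
  · exact hf.continuousAt (isOpen_SD.mem_nhds hp)
  · have hpK : p ∈ Kᶜ := fun h => hp (hKU h)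
    have hev : f =ᶠ[𝓝 p] fun _ => 0 := by
      filter_upwards [hK.isOpen_compl.mem_nhds hpK] with q hq
      exact h0 q hq
    exact continuousAt_const.congr hev.symm

theorem en_contDiff_of_SD {F : Type*} [NormedAddCommGroup F] [NormedSpace ℝ F]
    {n : WithTop ℕ∞} {f : Pt m → F} {K : Set (Pt m)}
    (hK : IsClosed K) (hKU : K ⊆ SD m) (hf : ContDiffOn ℝ n f (SD m))
    (h0 : ∀ p, p ∉ K → f p = 0) : ContDiff ℝ n f := by
  rw [contDiff_iff_contDiffAt]
  intro p
  by_cases hp : p ∈ SD m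
  · exact hf.contDiffAt (isOpen_SD.mem_nhds hp)
  · have hpK : p ∈ Kᶜ := fun h => hp (hKU h)
    have hev : f =ᶠ[𝓝 p] fun _ => 0 := by
      filter_upwards [hK.isOpen_compl.mem_nhds hpK] with q hq
      exact h0 q hq
    exact contDiffAt_const.congr_of_eventuallyEq hev

theorem en_locfin : IsFiniteMeasureOnCompacts (volume : Measure (Pt m)) := by
  have : (volume : Measure (Pt m)).IsAddHaarMeasure := Measure.prod.instIsAddHaarMeasure _ _
  infer_instance

theorem en_integrable_vol {F : Type*} [NormedAddCommGroup F] {f : Pt m → F} {K : Set (Pt m)}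
    (hK : IsCompact K) (hf : Continuous f) (h0 : ∀ p, p ∉ K → f p = 0) :
    Integrable f (volume : Measure (Pt m)) := by
  have := en_locfin (m := m)
  exact hf.integrable_of_hasCompactSupport (HasCompactSupport.intro hK h0)

theorem en_measurable_weight :
    Measurable fun p : Pt m => ENNReal.ofReal ((hgt p ^ (2 * m + 4))⁻¹) :=
  ((measurable_hgt.pow_const (2 * m + 4)).inv).ennreal_ofReal

theorem en_integrable_hyp {F : Type*} [NormedAddCommGroup F] [NormedSpace ℝ F] {f : Pt m → F}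
    {K : Set (Pt m)} (hK : IsCompact K) (hKU : K ⊆ SD m) (hf : ContinuousOn f (SD m))
    (h0 : ∀ p, p ∉ K → f p = 0) : Integrable f (hyp m) := by
  unfold hyp
  rw [integrable_withDensity_iff_integrable_smul' en_measurable_weight
    (Filter.Eventually.of_forall fun _ => ENNReal.ofReal_lt_top)]
  have hc : Continuous fun p : Pt m => ((hgt p ^ (2 * m + 4))⁻¹ : ℝ) • f p := by
    refine en_continuous_of_SD hK.isClosed hKU ?_ fun p hp => by rw [h0 p hp, smul_zero]
    refine ContinuousOn.smul ?_ hf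
    refine ContinuousOn.inv₀ (continuous_hgt.pow (2 * m + 4)).continuousOn fun p hp => ?_
    have hp' : (0 : ℝ) < hgt p := hp
    positivity
  have hi : Integrable (fun p : Pt m => ((hgt p ^ (2 * m + 4))⁻¹ : ℝ) • f p)
      (volume.restrict (SD m)) :=
    (en_integrable_vol hK hc fun p hp => by rw [h0 p hp, smul_zero]).restrict
  refine (integrable_congr ?_).mpr hi
  rw [Filter.EventuallyEq, ae_restrict_iff' isOpen_SD.measurableSet]
  refine Filter.Eventually.of_forall fun p hp => ?_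
  have hp' : (0 : ℝ) < hgt p := hp
  rw [ENNReal.toReal_ofReal (by positivity)]

/-! ## continuity of the partial derivatives -/

/-- the horizontal vector fields -/
noncomputable def en_vX (e : E m) (p : Pt m) : Pt m := (-hin e p.2, e)

theorem en_XX_eq (e : E m) (f : Pt m → ℂ) (p : Pt m) : XX e f p = pd (en_vX e p) f p := rfl

theorem en_continuous_hin (e : E m) : Continuous fun p : Pt m => hin e p.2 := by
  unfold hin
  refine continuous_finsetSum _ fun k _ => continuous_const.mul (continuous_star.comp ?_)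
  exact ((continuous_apply k).comp (PiLp.continuous_ofLp 2 fun _ : Fin m => Q)).comp
    continuous_snd

theorem en_continuous_vX (e : E m) : Continuous (en_vX (m := m) e) :=
  (en_continuous_hin e).neg.prodMk continuous_const

theorem en_continuousOn_pd (e : Pt m) {f : Pt m → ℂ} (hf : ContDiffOn ℝ 1 f (SD m)) :
    ContinuousOn (pd e f) (SD m) := by
  have h := hf.continuousOn_fderiv_of_isOpen isOpen_SD le_rfl
  exact h.clm_apply continuousOn_const

theorem en_continuousOn_XX (e : E m) {f : Pt m → ℂ} (hf : ContDiffOn ℝ 1 f (SD m)) :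
    ContinuousOn (XX e f) (SD m) := by
  have h := hf.continuousOn_fderiv_of_isOpen isOpen_SD le_rfl
  exact h.clm_apply (en_continuous_vX e).continuousOn

theorem en_differentiableAt_of {f : Pt m → ℂ} (hf : ContDiffOn ℝ 1 f (SD m)) {p : Pt m}
    (hp : p ∈ SD m) : DifferentiableAt ℝ f p :=
  (hf.contDiffAt (isOpen_SD.mem_nhds hp)).differentiableAt one_ne_zero

theorem en_pd_zero_off (e : Pt m) {φ : Pt m → ℂ} {p : Pt m} (hp : p ∉ tsupport φ) :
    pd e φ p = 0 := by
  unfold pd
  have : fderiv ℝ φ p = 0 := by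
    by_contra hne
    exact hp (tsupport_fderiv_subset ℝ (subset_tsupport _ hne))
  rw [this]; rfl

theorem en_pd_mul (e : Pt m) {f h : Pt m → ℂ} {p : Pt m} (hf : DifferentiableAt ℝ f p)
    (hh : DifferentiableAt ℝ h p) :
    pd e (fun q => f q * h q) p = f p * pd e h p + h p * pd e f p := by
  unfold pd
  have h1 : fderiv ℝ (fun q => f q * h q) p = _ := (hf.hasFDerivAt.mul hh.hasFDerivAt).fderiv
  rw [h1]
  simp [smul_eq_mul]

theorem en_integral_add3 {f g h : Pt m → ℂ} {μ : Measure (Pt m)} (hf : Integrable f μ)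
    (hg : Integrable g μ) (hh : Integrable h μ) :
    (∫ p, f p ∂μ) + (∫ p, g p ∂μ) + (∫ p, h p ∂μ) = ∫ p, (f p + g p + h p) ∂μ := by
  have e1 : ∫ p, (f p + g p) ∂μ = (∫ p, f p ∂μ) + (∫ p, g p ∂μ) := integral_add hf hg
  have e2 : ∫ p, ((f p + g p) + h p) ∂μ = (∫ p, (f p + g p) ∂μ) + (∫ p, h p ∂μ) :=
    integral_add (hf.add hg) hh
  rw [e2, e1]

/-! ## derivative of the height -/

theorem en_hasFDerivAt_hgt (p : Pt m) : HasFDerivAt (hgt : Pt m → ℝ)
    (-((2 : ℝ) • en_reL.comp (ContinuousLinearMap.fst ℝ Q (E m)) +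
      (2 : ℝ) • (innerSL ℝ p.2).comp (ContinuousLinearMap.snd ℝ Q (E m)))) p := by
  have h1 : HasFDerivAt (fun q : Pt m => 2 * q.1.re)
      ((2 : ℝ) • en_reL.comp (ContinuousLinearMap.fst ℝ Q (E m))) p := by
    have h := (en_reL.comp (ContinuousLinearMap.fst ℝ Q (E m))).hasFDerivAt (x := p)
    have h' := h.const_mul 2
    refine h'.congr_of_eventuallyEq (Filter.Eventually.of_forall fun q => ?_)
    change 2 * q.1.re = 2 * en_reL q.1
    rw [en_reL_apply]
  have h2 : HasFDerivAt (fun q : Pt m => ‖q.2‖ ^ 2)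
      ((2 : ℝ) • (innerSL ℝ p.2).comp (ContinuousLinearMap.snd ℝ Q (E m))) p := by
    have h3 : HasFDerivAt (fun q : Pt m => q.2) (ContinuousLinearMap.snd ℝ Q (E m)) p :=
      hasFDerivAt_snd
    have h4 := h3.norm_sq
    refine h4.congr_fderiv ?_
    refine ContinuousLinearMap.ext fun v => ?_
    simp [two_smul]
  exact (h1.add h2).neg

theorem en_fd_hgt (p e : Pt m) :
    fderiv ℝ (hgt : Pt m → ℝ) p e = -(2 * e.1.re + 2 * inner ℝ p.2 e.2) := by
  rw [(en_hasFDerivAt_hgt p).fderiv]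
  simp [en_reL_apply]

theorem en_fd_hgt_q (p : Pt m) (q : Q) : fderiv ℝ (hgt : Pt m → ℝ) p (q, 0) = -(2 * q.re) := by
  rw [en_fd_hgt]; simp

theorem en_fd_hgt_X (e : E m) (p : Pt m) : fderiv ℝ (hgt : Pt m → ℝ) p (en_vX e p) = 0 := by
  rw [en_fd_hgt]
  unfold en_vX
  dsimp only
  rw [inner_re, ← star_hin e p.2, Quaternion.re_star, Quaternion.re_neg]
  ring

/-! ## the gradient product -/

theorem en_continuousOn_gdot {u v : Pt m → ℂ} (hu : ContDiffOn ℝ 1 u (SD m))
    (hv : ContDiffOn ℝ 1 v (SD m)) : ContinuousOn (gdot u v) (SD m) := by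
  have h : ContinuousOn (fun p : Pt m => (hgt p : ℂ)) (SD m) :=
    (Complex.continuous_ofReal.comp continuous_hgt).continuousOn
  exact ((h.pow 2).mul (continuousOn_finsetSum _ fun r _ =>
      (en_continuousOn_pd (qu r, 0) hu).mul (en_continuousOn_pd (qu r, 0) hv))).add
    (h.mul (continuousOn_finsetSum _ fun k _ => continuousOn_finsetSum _ fun r _ =>
      (en_continuousOn_XX (ek k (qu r)) hu).mul (en_continuousOn_XX (ek k (qu r)) hv)))

theorem en_pd_congr (e : Pt m) {f h : Pt m → ℂ} {p : Pt m} (hfh : f =ᶠ[𝓝 p] h) :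
    pd e f p = pd e h p := by
  unfold pd; rw [hfh.fderiv_eq]

theorem en_gdot_congr {f h f' h' : Pt m → ℂ} {p : Pt m} (hf : f =ᶠ[𝓝 p] f')
    (hh : h =ᶠ[𝓝 p] h') : gdot f h p = gdot f' h' p := by
  unfold gdot
  simp only [en_XX_eq, en_pd_congr _ hf, en_pd_congr _ hh]

theorem en_gdot_zero_off {u φ : Pt m → ℂ} {p : Pt m} (hp : p ∉ tsupport φ) :
    gdot u φ p = 0 := by
  unfold gdot
  simp [en_XX_eq, en_pd_zero_off _ hp]

theorem en_aesm_of {f : Pt m → ℂ} (hf : ContinuousOn f (SD m)) :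
    AEStronglyMeasurable f (hyp m) := by
  have h : AEStronglyMeasurable f (volume.restrict (SD m)) :=
    hf.aestronglyMeasurable isOpen_SD.measurableSet
  unfold hyp
  exact h.mono_ac (withDensity_absolutelyContinuous _ _)

/-- complex version of a real function -/
noncomputable def en_cc (η : Pt m → ℝ) (p : Pt m) : ℂ := (η p : ℂ)

theorem en_contDiff_cc {n : WithTop ℕ∞} {η : Pt m → ℝ} (h : ContDiff ℝ n η) :
    ContDiff ℝ n (en_cc η) :=
  Complex.ofRealCLM.contDiff.comp h

theorem en_contDiffOn_conj {n : WithTop ℕ∞} {f : Pt m → ℂ} {s : Set (Pt m)}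
    (h : ContDiffOn ℝ n f s) : ContDiffOn ℝ n (fun p => (starRingEnd ℂ) (f p)) s :=
  Complex.conjCLE.contDiff.comp_contDiffOn h

theorem en_pd_conj (e : Pt m) {f : Pt m → ℂ} {p : Pt m} (hf : DifferentiableAt ℝ f p) :
    pd e (fun q => (starRingEnd ℂ) (f q)) p = (starRingEnd ℂ) (pd e f p) := by
  unfold pd
  have h := (Complex.conjCLE.toContinuousLinearMap.hasFDerivAt (x := f p)).comp p hf.hasFDerivAt
  have h2 : fderiv ℝ (fun q => (starRingEnd ℂ) (f q)) p = _ := h.fderiv
  rw [h2]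
  rfl

theorem en_gdot_mul {u f h : Pt m → ℂ} {p : Pt m} (hf : DifferentiableAt ℝ f p)
    (hh : DifferentiableAt ℝ h p) :
    gdot u (fun q => f q * h q) p = f p * gdot u h p + h p * gdot u f p := by
  unfold gdot
  simp only [en_XX_eq, en_pd_mul _ hf hh]
  have e1 : ∑ r : Fin 4, pd (qu r, 0) u p * (f p * pd (qu r, 0) h p + h p * pd (qu r, 0) f p)
      = f p * ∑ r : Fin 4, pd (qu r, 0) u p * pd (qu r, 0) h p
        + h p * ∑ r : Fin 4, pd (qu r, 0) u p * pd (qu r, 0) f p := by
    rw [Finset.mul_sum, Finset.mul_sum, ← Finset.sum_add_distrib]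
    exact Finset.sum_congr rfl fun r _ => by ring
  have e2 : ∑ k : Fin m, ∑ r : Fin 4, pd (en_vX (ek k (qu r)) p) u p *
        (f p * pd (en_vX (ek k (qu r)) p) h p + h p * pd (en_vX (ek k (qu r)) p) f p)
      = f p * (∑ k : Fin m, ∑ r : Fin 4, pd (en_vX (ek k (qu r)) p) u p *
          pd (en_vX (ek k (qu r)) p) h p)
        + h p * (∑ k : Fin m, ∑ r : Fin 4, pd (en_vX (ek k (qu r)) p) u p *
          pd (en_vX (ek k (qu r)) p) f p) := by
    rw [Finset.mul_sum, Finset.mul_sum, ← Finset.sum_add_distrib]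
    refine Finset.sum_congr rfl fun k _ => ?_
    rw [Finset.mul_sum, Finset.mul_sum, ← Finset.sum_add_distrib]
    exact Finset.sum_congr rfl fun r _ => by ring
  rw [e1, e2]
  ring

theorem en_gdot_conj_self {u : Pt m → ℂ} {p : Pt m} (hu : DifferentiableAt ℝ u p) :
    gdot u (fun q => (starRingEnd ℂ) (u q)) p = (gsq u p : ℂ) := by
  unfold gdot gsq
  simp only [en_XX_eq, en_pd_conj _ hu, Complex.mul_conj, Complex.normSq_eq_norm_sq]
  push_cast
  rfl

theorem en_smooth1 {M : AddSubgroup (V m)} {ι : Type} {u : ι → Pt m → ℂ} (hS : Sys M ι u)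
    (i : ι) : ContDiffOn ℝ 1 (u i) (SD m) := (hS.smooth i).of_le (by norm_num)

theorem en_continuousOn_Gop {ι : Type} [Fintype ι] {u : ι → Pt m → ℂ}
    (hu : ∀ i, ContDiffOn ℝ 1 (u i) (SD m)) {v : Pt m → ℂ} (hv : ContDiffOn ℝ 1 v (SD m)) :
    ContinuousOn (Gop u v) (SD m) := by
  unfold Gop
  refine continuousOn_finsetSum _ fun i _ => ?_
  exact (en_contDiffOn_conj (hu i)).continuousOn.mul (en_continuousOn_gdot (hu i) hv)

theorem en_Gop_mul {ι : Type} [Fintype ι] (u : ι → Pt m → ℂ) {f h : Pt m → ℂ} {p : Pt m}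
    (hf : DifferentiableAt ℝ f p) (hh : DifferentiableAt ℝ h p) :
    Gop u (fun q => f q * h q) p = f p * Gop u h p + h p * Gop u f p := by
  unfold Gop
  rw [Finset.mul_sum, Finset.mul_sum, ← Finset.sum_add_distrib]
  refine Finset.sum_congr rfl fun i _ => ?_
  rw [en_gdot_mul hf hh]
  ring

theorem en_Gop_off {ι : Type} [Fintype ι] (u : ι → Pt m → ℂ) {v : Pt m → ℂ} {p : Pt m}
    (h : p ∉ tsupport v) : Gop u v p = 0 := by
  unfold Gop
  refine Finset.sum_eq_zero fun i _ => ?_
  rw [en_gdot_zero_off h, mul_zero]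

/-- a closed box in the Siegel domain -/
def en_box (m : ℕ) (C a ρ : ℝ) : Set (Pt m) :=
  {p | ‖p.2‖ ≤ C ∧ ‖p.1.im‖ ≤ C ∧ a ≤ hgt p ∧ hgt p ≤ ρ}

theorem en_isClosed_box (C a ρ : ℝ) : IsClosed (en_box m C a ρ) := by
  have h1 : IsClosed {p : Pt m | ‖p.2‖ ≤ C} := isClosed_le continuous_snd.norm continuous_const
  have h2 : IsClosed {p : Pt m | ‖p.1.im‖ ≤ C} :=
    isClosed_le (Quaternion.continuous_im.comp continuous_fst).norm continuous_const
  have h3 : IsClosed {p : Pt m | a ≤ hgt p} := isClosed_le continuous_const continuous_hgt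
  have h4 : IsClosed {p : Pt m | hgt p ≤ ρ} := isClosed_le continuous_hgt continuous_const
  exact h1.inter (h2.inter (h3.inter h4))

theorem en_norm_le (q : Q) : ‖q‖ ≤ |q.re| + ‖q.im‖ := by
  have h : ((q.re : ℝ) : Q) + q.im = q := Quaternion.re_add_im q
  calc ‖q‖ = ‖((q.re : ℝ) : Q) + q.im‖ := by rw [h]
    _ ≤ ‖((q.re : ℝ) : Q)‖ + ‖q.im‖ := norm_add_le _ _
    _ = _ := by rw [Quaternion.norm_coe, Real.norm_eq_abs]

theorem en_isCompact_box (C a ρ : ℝ) : IsCompact (en_box m C a ρ) := by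
  refine Metric.isCompact_of_isClosed_isBounded (en_isClosed_box C a ρ) ?_
  refine (Metric.isBounded_closedBall (x := (0 : Pt m))
    (r := |C| + (|a| + |ρ| + C ^ 2))).subset ?_
  intro p hp
  obtain ⟨h1, h2, h3, h4⟩ := hp
  rw [mem_closedBall_zero_iff, Prod.norm_def, max_le_iff]
  have hC : 0 ≤ C := (norm_nonneg _).trans h1
  have hC' : |C| = C := abs_of_nonneg hC
  have h5 : ‖p.2‖ ^ 2 ≤ C ^ 2 := pow_le_pow_left₀ (norm_nonneg _) h1 2
  have h6 := sq_nonneg ‖p.2‖
  have h7 : |p.1.re| ≤ |a| + |ρ| + C ^ 2 := by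
    unfold hgt at h3 h4
    rw [abs_le]
    have g1 := le_abs_self ρ
    have g2 := abs_nonneg a
    have g3 := neg_abs_le a
    have g4 := abs_nonneg ρ
    have g5 := sq_nonneg C
    constructor <;> linarith
  constructor
  · refine (en_norm_le _).trans ?_
    rw [hC']; linarith
  · have : 0 ≤ |a| + |ρ| + C ^ 2 := by positivity
    rw [hC']; linarith

theorem en_box_subset {C a ρ : ℝ} (ha : 0 < a) : en_box m C a ρ ⊆ SD m := fun _ hp =>
  lt_of_lt_of_le ha hp.2.2.1

theorem en_isClosed_Sieg (C a : ℝ) : IsClosed (Sieg m C a) := by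
  have h1 : IsClosed {p : Pt m | ‖p.2‖ ≤ C} := isClosed_le continuous_snd.norm continuous_const
  have h2 : IsClosed {p : Pt m | ‖p.1.im‖ ≤ C} :=
    isClosed_le (Quaternion.continuous_im.comp continuous_fst).norm continuous_const
  have h3 : IsClosed {p : Pt m | a ≤ hgt p} := isClosed_le continuous_const continuous_hgt
  exact h1.inter (h2.inter h3)

theorem en_Gop_kap_off {M : AddSubgroup (V m)} {κ : Pt m → ℝ} {C a : ℝ} (hK : Kap M κ C a)
    {ι : Type} [Fintype ι] (u : ι → Pt m → ℂ) {p : Pt m} (hp : p ∉ Sieg m C a) :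
    Gop u (en_cc κ) p = 0 := by
  refine en_Gop_off u fun h => hp ?_
  refine closure_minimal (fun q hq => hK.supp q ?_) (en_isClosed_Sieg C a) h
  intro h0
  exact hq (by unfold en_cc; rw [h0]; simp)

end Pool.Agent.Helper19.Qh
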